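import Mathlib

/-!
# Almost square spaces and symmetric projective tensor products: definitions
-/

set_option autoImplicit false

namespace Q195.ASQ

open scoped TensorProduct

/-- `X` is almost square: for all finitely many unit vectors `x 0, ..., x (k - 1)` and all `ε > 0`
there is a unit vector `y` with `‖x i ± y‖ ≤ 1 + ε` for all `i`. -/
def IsASQ (X : Type*) [NormedAddCommGroup X] : Prop :=
  ∀ (k : ℕ) (x : Fin k → X), (∀ i, ‖x i‖ = 1) → ∀ ε : ℝ, 0 < ε →
    ∃ y : X, ‖y‖ = 1 ∧ ∀ i, ‖x i + y‖ ≤ 1 + ε ∧ ‖x i - y‖ ≤ 1 + ε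

section defs

variable (N : ℕ) (X : Type*) [NormedAddCommGroup X] [NormedSpace ℝ X]

/-- The linear span of the elementary symmetric tensors `x ⊗ ... ⊗ x` (`N` factors) in the
`N`-fold algebraic tensor product of `X`. -/
def symSub : Submodule ℝ (⨂[ℝ] _i : Fin N, X) :=
  Submodule.span ℝ (Set.range fun x : X => (⨂ₜ[ℝ] _i : Fin N, x))

/-- The algebraic symmetric tensor product of `N` copies of `X`. -/
def SymTensor : Type _ := ↥(symSub N X)

noncomputable instance : AddCommGroup (SymTensor N X) := (symSub N X).addCommGroup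

noncomputable instance : Module ℝ (SymTensor N X) := (symSub N X).module

theorem elem_mem (x : X) : (⨂ₜ[ℝ] _i : Fin N, x) ∈ symSub N X := Submodule.subset_span ⟨x, rfl⟩

variable {X}

/-- The elementary symmetric tensor `x ⊗ ... ⊗ x` (`N` factors). -/
def elem (x : X) : SymTensor N X :=
  ⟨⨂ₜ[ℝ] _i : Fin N, x, elem_mem N X x⟩

variable {N}

/-- The sum `∑ λ_i x_i ⊗ ... ⊗ x_i` of a finite list of pairs `(λ_i, x_i)`. -/
noncomputable def value (L : List (ℝ × X)) : SymTensor N X :=
  (L.map fun p => p.1 • elem N p.2).sum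

variable (N) in
/-- The cost `∑ |λ_i| ‖x_i‖ ^ N` of a finite list of pairs `(λ_i, x_i)`. -/
noncomputable def cost (L : List (ℝ × X)) : ℝ :=
  (L.map fun p => |p.1| * ‖p.2‖ ^ N).sum

/-- The symmetric projective norm: the infimum of `∑ |λ_i| ‖x_i‖ ^ N` over all finite
representations `u = ∑ λ_i x_i ⊗ ... ⊗ x_i`. -/
noncomputable def piS (u : SymTensor N X) : ℝ :=
  sInf {r : ℝ | ∃ L : List (ℝ × X), value L = u ∧ r = cost N L}

theorem value_append (L L' : List (ℝ × X)) :
    (value (L ++ L') : SymTensor N X) = value L + value L' := by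
  simp [value]

theorem cost_append (L L' : List (ℝ × X)) : cost N (L ++ L') = cost N L + cost N L' := by
  simp [cost]

theorem cost_nonneg (L : List (ℝ × X)) : 0 ≤ cost N L := by
  unfold cost
  apply List.sum_nonneg
  intro a ha
  rw [List.mem_map] at ha
  obtain ⟨p, -, rfl⟩ := ha
  positivity

theorem value_smul (c : ℝ) (L : List (ℝ × X)) :
    (value (L.map fun p => (c * p.1, p.2)) : SymTensor N X) = c • value L := by
  unfold value
  induction L with
  | nil => simp
  | cons a L ih =>
    simp only [List.map_cons, List.sum_cons, smul_add]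
    rw [ih, mul_smul]

theorem cost_smul (c : ℝ) (L : List (ℝ × X)) :
    cost N (L.map fun p => (c * p.1, p.2)) = |c| * cost N L := by
  unfold cost
  induction L with
  | nil => simp
  | cons a L ih =>
    simp only [List.map_cons, List.sum_cons, mul_add]
    rw [ih, abs_mul, mul_assoc]

theorem exists_rep (u : SymTensor N X) : ∃ L : List (ℝ × X), value L = u := by
  obtain ⟨u, hu⟩ := u
  induction hu using Submodule.span_induction with
  | mem x hx =>
    obtain ⟨y, rfl⟩ := hx
    refine ⟨[(1, y)], ?_⟩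
    simp only [value, List.map_cons, List.map_nil, List.sum_cons, List.sum_nil, one_smul,
      add_zero]
    rfl
  | zero => exact ⟨[], rfl⟩
  | add x y hx hy ihx ihy =>
    obtain ⟨L, hL⟩ := ihx
    obtain ⟨L', hL'⟩ := ihy
    refine ⟨L ++ L', ?_⟩
    rw [value_append, hL, hL']
    rfl
  | smul a x hx ih =>
    obtain ⟨L, hL⟩ := ih
    refine ⟨L.map fun p => (a * p.1, p.2), ?_⟩
    rw [value_smul, hL]
    rfl

theorem bddBelow_costs (u : SymTensor N X) :
    BddBelow {r : ℝ | ∃ L : List (ℝ × X), value L = u ∧ r = cost N L} :=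
  ⟨0, by rintro _ ⟨L, -, rfl⟩; exact cost_nonneg L⟩

theorem piS_le_cost (L : List (ℝ × X)) : piS (value L : SymTensor N X) ≤ cost N L :=
  csInf_le (bddBelow_costs _) ⟨L, rfl, rfl⟩

theorem piS_nonneg (u : SymTensor N X) : 0 ≤ piS u :=
  Real.sInf_nonneg (by rintro _ ⟨L, -, rfl⟩; exact cost_nonneg L)

theorem exists_cost_lt (u : SymTensor N X) {r : ℝ} (h : piS u < r) :
    ∃ L : List (ℝ × X), value L = u ∧ cost N L < r := by
  obtain ⟨L₀, hL₀⟩ := exists_rep u
  obtain ⟨_, ⟨L, hL, rfl⟩, hlt⟩ := exists_lt_of_csInf_lt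
    (s := {r : ℝ | ∃ L : List (ℝ × X), value L = u ∧ r = cost N L}) ⟨_, L₀, hL₀, rfl⟩ h
  exact ⟨L, hL, hlt⟩

theorem piS_add (u v : SymTensor N X) : piS (u + v) ≤ piS u + piS v := by
  apply le_of_forall_pos_lt_add
  intro ε hε
  obtain ⟨L, hL, h1⟩ := exists_cost_lt u (lt_add_of_pos_right (piS u) (half_pos hε))
  obtain ⟨L', hL', h2⟩ := exists_cost_lt v (lt_add_of_pos_right (piS v) (half_pos hε))
  have h3 := piS_le_cost (N := N) (L ++ L')
  rw [value_append, hL, hL', cost_append] at h3
  linarith

theorem piS_zero : piS (0 : SymTensor N X) = 0 := by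
  refine le_antisymm ?_ (piS_nonneg _)
  have := piS_le_cost (N := N) (X := X) []
  simpa [value, cost] using this

theorem piS_smul_le (c : ℝ) (u : SymTensor N X) : piS (c • u) ≤ |c| * piS u := by
  apply le_of_forall_pos_lt_add
  intro ε hε
  have hc : 0 < |c| + 1 := by positivity
  obtain ⟨L, hL, h1⟩ := exists_cost_lt u (lt_add_of_pos_right (piS u) (div_pos hε hc))
  have h2 := piS_le_cost (N := N) (L.map fun p => (c * p.1, p.2))
  rw [value_smul, cost_smul, hL] at h2
  have h3 : |c| * cost N L ≤ |c| * (piS u + ε / (|c| + 1)) :=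
    mul_le_mul_of_nonneg_left h1.le (abs_nonneg c)
  have h4 : |c| * (ε / (|c| + 1)) < ε := by
    rw [mul_div_assoc', div_lt_iff₀ hc]
    nlinarith [abs_nonneg c]
  linarith

theorem piS_smul (c : ℝ) (u : SymTensor N X) : piS (c • u) = |c| * piS u := by
  refine le_antisymm (piS_smul_le c u) ?_
  rcases eq_or_ne c 0 with rfl | hc
  · simp [piS_zero]
  · have h := piS_smul_le c⁻¹ (c • u)
    rw [smul_smul, inv_mul_cancel₀ hc, one_smul, abs_inv] at h
    have h0 : 0 < |c| := abs_pos.2 hc
    calc |c| * piS u ≤ |c| * (|c|⁻¹ * piS (c • u)) := mul_le_mul_of_nonneg_left h h0.le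
      _ = piS (c • u) := by field_simp

theorem piS_neg (u : SymTensor N X) : piS (-u) = piS u := by
  have := piS_smul (-1) u
  simpa using this

/-- The symmetric projective norm as a seminorm of the additive group. -/
noncomputable def piSeminorm : AddGroupSeminorm (SymTensor N X) where
  toFun := piS
  map_zero' := piS_zero
  add_le' := piS_add
  neg' := piS_neg

noncomputable instance : SeminormedAddCommGroup (SymTensor N X) :=
  AddGroupSeminorm.toSeminormedAddCommGroup piSeminorm

theorem norm_def (u : SymTensor N X) : ‖u‖ = piS u := rfl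

theorem norm_smul_le_aux (c : ℝ) (u : SymTensor N X) : ‖c • u‖ ≤ ‖c‖ * ‖u‖ := by
  rw [norm_def, norm_def, piS_smul, Real.norm_eq_abs]

noncomputable instance : NormedSpace ℝ (SymTensor N X) where
  norm_smul_le := norm_smul_le_aux

variable (N) (X)

/-- The symmetric projective tensor product: the completion of the algebraic symmetric tensor
product of `N` copies of `X` for the symmetric projective norm. -/
abbrev SymProj : Type _ := UniformSpace.Completion (SymTensor N X)

end defs

end Q195.ASQ
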