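import Mathlib
import Pool.Agent.H758R2.Groth

set_option autoImplicit false

open Finset

namespace Q195.ASQ

variable {n : ℕ}

/-- the quadratic form of a matrix -/
noncomputable def q (a : Fin n → Fin n → ℝ) (x : Fin n → ℝ) : ℝ := ∑ j, ∑ k, a j k * x j * x k

/-- bound on the cube -/
def Bd (a : Fin n → Fin n → ℝ) (C : ℝ) : Prop := ∀ x : Fin n → ℝ, (∀ j, |x j| ≤ 1) → |q a x| ≤ C

theorem q_add (a b : Fin n → Fin n → ℝ) (x : Fin n → ℝ) : q (a + b) x = q a x + q b x := by
  simp [q, add_mul, sum_add_distrib]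

theorem q_sub (a b : Fin n → Fin n → ℝ) (x : Fin n → ℝ) : q (a - b) x = q a x - q b x := by
  simp [q, sub_mul, sum_sub_distrib]

theorem q_smul (c : ℝ) (a : Fin n → Fin n → ℝ) (x : Fin n → ℝ) : q (c • a) x = c * q a x := by
  simp [q, mul_sum, mul_assoc]

/-- polarization -/
theorem polar (a : Fin n → Fin n → ℝ) (x y : Fin n → ℝ) :
    q a (x + y) - q a (x - y) = 2 * ∑ j, ∑ k, (a j k + a k j) * x j * y k := by
  have h1 : ∑ j, ∑ k, (a j k + a k j) * x j * y k
      = ∑ j, ∑ k, (a j k * x j * y k + a j k * y j * x k) := by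
    have : ∑ j, ∑ k, a k j * x j * y k = ∑ j, ∑ k, a j k * y j * x k := by
      rw [sum_comm]
      refine sum_congr rfl fun j _ => sum_congr rfl fun k _ => ?_
      ring
    simp only [add_mul, sum_add_distrib]
    rw [this]
  rw [h1]
  unfold q
  rw [← sum_sub_distrib, mul_sum]
  refine sum_congr rfl fun j _ => ?_
  rw [← sum_sub_distrib, mul_sum]
  refine sum_congr rfl fun k _ => ?_
  simp only [Pi.add_apply, Pi.sub_apply]
  ring

theorem q_two (a : Fin n → Fin n → ℝ) (x : Fin n → ℝ) : q a ((2 : ℝ) • x) = 4 * q a x := by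
  unfold q
  rw [mul_sum]
  refine sum_congr rfl fun j _ => ?_
  rw [mul_sum]
  refine sum_congr rfl fun k _ => ?_
  simp only [Pi.smul_apply, smul_eq_mul]
  ring

theorem bil_le {a : Fin n → Fin n → ℝ} (ha : Bd a 1) {x y : Fin n → ℝ} (hx : ∀ j, |x j| ≤ 1)
    (hy : ∀ j, |y j| ≤ 1) : |∑ j, ∑ k, (a j k + a k j) * x j * y k| ≤ 4 := by
  have h := polar a x y
  have h1 : ∀ w : Fin n → ℝ, (∀ j, |w j| ≤ 2) → |q a w| ≤ 4 := by
    intro w hw
    have h2 := ha ((1 / 2 : ℝ) • w) (fun j => by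
      simp only [Pi.smul_apply, smul_eq_mul, abs_mul]
      rw [abs_of_pos (by norm_num : (0:ℝ) < 1 / 2)]
      linarith [hw j])
    have h3 := q_two a ((1 / 2 : ℝ) • w)
    rw [smul_smul] at h3
    norm_num at h3
    rw [h3, abs_mul, abs_of_pos (by norm_num : (0:ℝ) < 4)]
    norm_num at h2
    linarith
  have h2 := h1 (x + y) fun j => by
    have := abs_add_le (x j) (y j)
    simp only [Pi.add_apply]
    linarith [hx j, hy j]
  have h3 := h1 (x - y) fun j => by
    have := abs_sub (x j) (y j)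
    simp only [Pi.sub_apply]
    linarith [hx j, hy j]
  rw [abs_le] at h2 h3 ⊢
  constructor <;> linarith [h2.1, h2.2, h3.1, h3.2]

/-- the constant -/
noncomputable def K : ℝ := 1536

/-- domination by a diagonal form (Grothendieck's inequality). -/
theorem dominate [Nonempty (Fin n)] {a : Fin n → Fin n → ℝ} (ha : Bd a 1) :
    ∃ ρ : Fin n → ℝ, (∀ j, 0 ≤ ρ j) ∧ ∑ j, ρ j = 1 ∧ ∀ x, |q a x| ≤ K * ∑ j, ρ j * x j ^ 2 := by
  set A : Fin n → Fin n → ℂ := fun j k => ((a j k + a k j : ℝ) : ℂ) with hA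
  have hB : Pool.Agent.H758R2.Groth.BBound A 16 := by
    intro x y hx hy
    have hre : ∀ z : ℂ, ‖z‖ ≤ 1 → |z.re| ≤ 1 := fun z hz => (Complex.abs_re_le_norm z).trans hz
    have him : ∀ z : ℂ, ‖z‖ ≤ 1 → |z.im| ≤ 1 := fun z hz => (Complex.abs_im_le_norm z).trans hz
    have e1 := bil_le ha (x := fun j => (x j).re) (y := fun j => (y j).re)
      (fun j => hre _ (hx j)) (fun j => hre _ (hy j))
    have e2 := bil_le ha (x := fun j => (x j).im) (y := fun j => (y j).im)
      (fun j => him _ (hx j)) (fun j => him _ (hy j))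
    have e3 := bil_le ha (x := fun j => (x j).re) (y := fun j => (y j).im)
      (fun j => hre _ (hx j)) (fun j => him _ (hy j))
    have e4 := bil_le ha (x := fun j => (x j).im) (y := fun j => (y j).re)
      (fun j => him _ (hx j)) (fun j => hre _ (hy j))
    have r1 : (∑ i, ∑ j, A i j * x i * y j).re
        = ∑ i, ∑ j, (a i j + a j i) * (x i).re * (y j).re
          - ∑ i, ∑ j, (a i j + a j i) * (x i).im * (y j).im := by
      rw [Complex.re_sum, ← sum_sub_distrib]
      refine sum_congr rfl fun i _ => ?_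
      rw [Complex.re_sum, ← sum_sub_distrib]
      refine sum_congr rfl fun j _ => ?_
      simp only [hA, Complex.mul_re, Complex.mul_im, Complex.ofReal_re, Complex.ofReal_im]
      ring
    have r2 : (∑ i, ∑ j, A i j * x i * y j).im
        = ∑ i, ∑ j, (a i j + a j i) * (x i).re * (y j).im
          + ∑ i, ∑ j, (a i j + a j i) * (x i).im * (y j).re := by
      rw [Complex.im_sum, ← sum_add_distrib]
      refine sum_congr rfl fun i _ => ?_
      rw [Complex.im_sum, ← sum_add_distrib]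
      refine sum_congr rfl fun j _ => ?_
      simp only [hA, Complex.mul_re, Complex.mul_im, Complex.ofReal_re, Complex.ofReal_im]
      ring
    refine (Complex.norm_le_abs_re_add_abs_im _).trans ?_
    rw [r1, r2]
    refine (add_le_add (abs_sub _ _) (abs_add_le _ _)).trans ?_
    linarith
  have hG := Pool.Agent.H758R2.Groth.groth A hB
  obtain ⟨lam, mu, hl, hm, hl1, hm1, h⟩ := Pool.Agent.H758R2.Groth.pietsch A hG
  have key : ∀ x y : Fin n → ℝ, ∑ j, ∑ k, (a j k + a k j) * x j * y k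
      ≤ 96 * 16 / 2 * (∑ i, lam i * x i ^ 2 + ∑ j, mu j * y j ^ 2) := by
    intro x y
    have h1 := h (fun j => (x j : ℂ)) (fun j => (y j : ℂ))
    have h2 : (Pool.Agent.H758R2.Groth.B A (fun j => (x j : ℂ)) (fun j => (y j : ℂ))).re
        = ∑ j, ∑ k, (a j k + a k j) * x j * y k := by
      unfold Pool.Agent.H758R2.Groth.B
      rw [Complex.re_sum]
      refine sum_congr rfl fun i _ => ?_
      rw [Complex.re_sum]
      refine sum_congr rfl fun j _ => ?_
      simp only [hA]
      rw [← Complex.ofReal_mul, ← Complex.ofReal_mul, Complex.ofReal_re]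
    rw [h2] at h1
    refine h1.trans (le_of_eq ?_)
    simp only [Complex.norm_real, Real.norm_eq_abs, sq_abs]
  have hsym : ∀ x : Fin n → ℝ, ∑ j, ∑ k, (a j k + a k j) * x j * x k = 2 * q a x := by
    intro x
    have := polar a x x
    rw [sub_self, ← two_smul ℝ x, q_two] at this
    have h0 : q a (0 : Fin n → ℝ) = 0 := by simp [q]
    rw [h0] at this
    linarith
  refine ⟨fun j => (lam j + mu j) / 2, fun j => by linarith [hl j, hm j], ?_, fun x => ?_⟩
  · rw [← sum_div, sum_add_distrib, hl1, hm1]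
    norm_num
  · have h1 := key x x
    have h2 := key x (-x)
    rw [hsym] at h1
    have h3 : ∑ j, ∑ k, (a j k + a k j) * x j * (-x) k = -(2 * q a x) := by
      rw [← hsym, ← sum_neg_distrib]
      refine sum_congr rfl fun i _ => ?_
      rw [← sum_neg_distrib]
      refine sum_congr rfl fun j _ => ?_
      simp
    rw [h3] at h2
    have h4 : ∑ j, mu j * (-x) j ^ 2 = ∑ j, mu j * x j ^ 2 := by
      refine sum_congr rfl fun j _ => ?_
      simp
    rw [h4] at h2
    have h5 : ∑ j, (lam j + mu j) / 2 * x j ^ 2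
        = (∑ i, lam i * x i ^ 2 + ∑ j, mu j * x j ^ 2) / 2 := by
      rw [← sum_add_distrib, sum_div]
      refine sum_congr rfl fun j _ => ?_
      ring
    rw [h5]
    unfold K
    rw [abs_le]
    have h6 : 0 ≤ ∑ i, lam i * x i ^ 2 + ∑ j, mu j * x j ^ 2 :=
      add_nonneg (sum_nonneg fun i _ => mul_nonneg (hl i) (sq_nonneg _))
        (sum_nonneg fun i _ => mul_nonneg (hm i) (sq_nonneg _))
    constructor <;> linarith

/-- remove the row and the column `i` -/
def kill (i : Fin n) (a : Fin n → Fin n → ℝ) : Fin n → Fin n → ℝ :=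
  fun j k => if j = i ∨ k = i then 0 else a j k

theorem q_kill (i : Fin n) (a : Fin n → Fin n → ℝ) (x : Fin n → ℝ) :
    q (kill i a) x = q a (Function.update x i 0) := by
  unfold q kill
  refine sum_congr rfl fun j _ => sum_congr rfl fun k _ => ?_
  by_cases hj : j = i
  · subst hj; simp
  · by_cases hk : k = i
    · subst hk; simp
    · simp [hj, hk]

theorem kill_bd {i : Fin n} {a : Fin n → Fin n → ℝ} {C : ℝ} (ha : Bd a C) : Bd (kill i a) C := by
  intro x hx
  rw [q_kill]
  apply ha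
  intro j
  by_cases hj : j = i
  · subst hj; simp
  · rw [Function.update_of_ne hj]; exact hx j

/-- diagonal matrix -/
noncomputable def dg (d : Fin n → ℝ) : Fin n → Fin n → ℝ := fun j k => if j = k then d j else 0

theorem q_dg (d x : Fin n → ℝ) : q (dg d) x = ∑ j, d j * x j ^ 2 := by
  unfold q dg
  refine sum_congr rfl fun j _ => ?_
  simp only [ite_mul, zero_mul, sum_ite_eq, mem_univ, if_true]
  ring

theorem step {F : (Fin n → Fin n → ℝ) →ₗ[ℝ] ℝ} {ε : ℝ} {i : Fin n}
    (hF : ∀ a, Bd a 1 → |a i i| + |F a| ≤ 1 + ε) {a : Fin n → Fin n → ℝ} (ha : Bd a 1) :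
    |F (kill i a)| ≤ 4 * K * ε := by
  have : Nonempty (Fin n) := ⟨i⟩
  obtain ⟨ρ, h0, h1, h⟩ := dominate (kill_bd (i := i) ha)
  have hK : (0 : ℝ) < K := by unfold K; norm_num
  set r : Fin n → ℝ := Function.update ρ i 0 with hr
  have hr0 : ∀ j, 0 ≤ r j := by
    intro j
    by_cases hj : j = i
    · subst hj; simp [hr]
    · rw [hr, Function.update_of_ne hj]; exact h0 j
  have hrρ : ∀ j, r j ≤ ρ j := by
    intro j
    by_cases hj : j = i
    · subst hj; simp [hr, h0]
    · rw [hr, Function.update_of_ne hj]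
  have hri : r i = 0 := by simp [hr]
  have hdom : ∀ x, |q (kill i a) x| ≤ K * ∑ j, r j * x j ^ 2 := by
    intro x
    have h2 := h (Function.update x i 0)
    have h3 : q (kill i a) (Function.update x i 0) = q (kill i a) x := by
      rw [q_kill, q_kill, Function.update_idem]
    rw [h3] at h2
    refine h2.trans (le_of_eq ?_)
    congr 1
    refine sum_congr rfl fun j _ => ?_
    by_cases hj : j = i
    · subst hj; simp [hri]
    · rw [Function.update_of_ne hj, hr, Function.update_of_ne hj]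
  have hle1 : ∀ x : Fin n → ℝ, (∀ j, |x j| ≤ 1) → ∑ j, r j * x j ^ 2 ≤ 1 := by
    intro x hx
    calc ∑ j, r j * x j ^ 2 ≤ ∑ j, ρ j * 1 := by
          refine sum_le_sum fun j _ => mul_le_mul (hrρ j) ?_ (sq_nonneg _) (h0 j)
          have := sq_le_sq' (by linarith [abs_nonneg (x j)]) (hx j)
          rwa [sq_abs, one_pow] at this
      _ = 1 := by simpa using h1
  have hnn : ∀ x : Fin n → ℝ, 0 ≤ ∑ j, r j * x j ^ 2 :=
    fun x => sum_nonneg fun j _ => mul_nonneg (hr0 j) (sq_nonneg _)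
  -- the two semidefinite forms
  set Q : ℝ → Fin n → Fin n → ℝ := fun s => (1 / (2 * K)) • (dg (K • r) + s • kill i a) with hQ
  have hqQ : ∀ s x, q (Q s) x = (1 / (2 * K)) * (K * ∑ j, r j * x j ^ 2 + s * q (kill i a) x) := by
    intro s x
    rw [hQ]
    simp only
    rw [q_smul, q_add, q_dg, q_smul]
    simp only [Pi.smul_apply, smul_eq_mul, mul_assoc]
    rw [← mul_sum]
  have hQ01 : ∀ s, (s = 1 ∨ s = -1) → ∀ x : Fin n → ℝ, (∀ j, |x j| ≤ 1) →
      0 ≤ q (Q s) x ∧ q (Q s) x ≤ 1 := by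
    intro s hs x hx
    rw [hqQ]
    have h2 := abs_le.1 (hdom x)
    have h3 := hle1 x hx
    have h4 : (0:ℝ) ≤ 1 / (2 * K) := by positivity
    have h5 : 1 / (2 * K) * (2 * K) = 1 := by field_simp
    constructor
    · apply mul_nonneg h4
      rcases hs with rfl | rfl <;> linarith [h2.1, h2.2]
    · calc 1 / (2 * K) * (K * ∑ j, r j * x j ^ 2 + s * q (kill i a) x)
          ≤ 1 / (2 * K) * (2 * K) := by
            apply mul_le_mul_of_nonneg_left _ h4
            have h6 : K * ∑ j, r j * x j ^ 2 ≤ K * 1 := mul_le_mul_of_nonneg_left h3 hK.le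
            rcases hs with rfl | rfl <;> linarith [h2.1, h2.2]
        _ = 1 := h5
  set E : Fin n → Fin n → ℝ := dg (Pi.single i 1) with hE
  have hqE : ∀ x, q E x = x i ^ 2 := by
    intro x
    rw [hE, q_dg, Finset.sum_eq_single i]
    · simp
    · intro j _ hj; simp [hj]
    · simp
  have hx1 : ∀ x : Fin n → ℝ, (∀ j, |x j| ≤ 1) → x i ^ 2 ≤ 1 := by
    intro x hx
    have := sq_le_sq' (by linarith [abs_nonneg (x i)]) (hx i)
    rwa [sq_abs, one_pow] at this
  have hFE : |F E| ≤ ε := by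
    have h2 := hF E (fun x hx => by
      rw [hqE, abs_of_nonneg (sq_nonneg _)]; exact hx1 x hx)
    have h3 : E i i = 1 := by simp [hE, dg]
    rw [h3, abs_one] at h2
    linarith
  have hQi : ∀ s, Q s i i = 0 := by
    intro s
    simp [hQ, dg, kill, hri]
  have hFQ : ∀ s, (s = 1 ∨ s = -1) → |F (Q s)| ≤ 2 * ε := by
    intro s hs
    have h2 := hF (E - Q s) (fun x hx => by
      rw [q_sub, hqE, abs_le]
      have h3 := hQ01 s hs x hx
      have h4 := hx1 x hx
      constructor <;> nlinarith [h3.1, h3.2, sq_nonneg (x i)])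
    have h3 : (E - Q s) i i = 1 := by
      simp only [Pi.sub_apply, hQi]
      simp [hE, dg]
    rw [h3, abs_one, map_sub] at h2
    have h4 : |F (Q s)| ≤ |F E| + |F E - F (Q s)| := by
      have := abs_sub_abs_le_abs_sub (F (Q s)) (F E)
      rw [abs_sub_comm] at this
      linarith
    linarith
  have hkill : kill i a = K • (Q 1 - Q (-1)) := by
    funext j k
    simp only [hQ, Pi.smul_apply, Pi.sub_apply, Pi.add_apply, smul_eq_mul]
    field_simp
    ring
  rw [hkill, map_smul, map_sub, smul_eq_mul, abs_mul, abs_of_pos hK]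
  have h2 := abs_sub (F (Q 1)) (F (Q (-1)))
  have h3 := hFQ 1 (Or.inl rfl)
  have h4 := hFQ (-1) (Or.inr rfl)
  have h5 : |F (Q 1) - F (Q (-1))| ≤ 4 * ε := by linarith
  nlinarith

theorem step' {F : (Fin n → Fin n → ℝ) →ₗ[ℝ] ℝ} {ε : ℝ} {i : Fin n}
    (hF : ∀ a, Bd a 1 → |a i i| + |F a| ≤ 1 + ε) {a : Fin n → Fin n → ℝ} {C : ℝ} (hC : 0 < C)
    (ha : Bd a C) : |F (kill i a)| ≤ C * (4 * K * ε) := by
  have h1 : Bd (C⁻¹ • a) 1 := by
    intro x hx
    rw [q_smul, abs_mul, abs_of_pos (inv_pos.2 hC)]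
    rw [inv_mul_le_iff₀ hC, mul_one]
    exact ha x hx
  have h2 := step hF h1
  have h3 : kill i (C⁻¹ • a) = C⁻¹ • kill i a := by
    funext j k
    simp only [kill, Pi.smul_apply, smul_eq_mul]
    split_ifs <;> simp
  rw [h3, map_smul, smul_eq_mul, abs_mul, abs_of_pos (inv_pos.2 hC), inv_mul_le_iff₀ hC] at h2
  exact h2

theorem fin_main {F : (Fin n → Fin n → ℝ) →ₗ[ℝ] ℝ} {ε : ℝ} {i₀ i₁ i₂ : Fin n}
    (h01 : i₀ ≠ i₁) (h02 : i₀ ≠ i₂) (h12 : i₁ ≠ i₂)
    (hF : ∀ a, Bd a 1 → ∀ i, (i = i₀ ∨ i = i₁ ∨ i = i₂) → |a i i| + |F a| ≤ 1 + ε)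
    {a : Fin n → Fin n → ℝ} (ha : Bd a 1) : |F a| ≤ 7 * (4 * K * ε) := by
  have hsub : ∀ (b : Fin n → Fin n → ℝ) (i : Fin n) (C : ℝ), Bd b C → Bd (b - kill i b) (2 * C) := by
    intro b i C hb x hx
    rw [q_sub]
    have h1 := abs_sub (q b x) (q (kill i b) x)
    linarith [hb x hx, kill_bd (i := i) hb x hx]
  set b := a - kill i₀ a with hb
  set c := b - kill i₁ b with hc
  have hbB : Bd b (2 * 1) := hsub a i₀ 1 ha
  have hcB : Bd c (2 * (2 * 1)) := hsub b i₁ _ hbB
  have e0 := step' (i := i₀) (fun a ha => hF a ha i₀ (Or.inl rfl)) one_pos ha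
  have e1 := step' (i := i₁) (fun a ha => hF a ha i₁ (Or.inr (Or.inl rfl))) (by norm_num) hbB
  have e2 := step' (i := i₂) (fun a ha => hF a ha i₂ (Or.inr (Or.inr rfl))) (by norm_num) hcB
  have hcc : kill i₂ c = c := by
    funext j k
    simp only [kill, hc, hb, Pi.sub_apply]
    by_cases h : j = i₂ ∨ k = i₂
    · rw [if_pos h]
      rcases h with rfl | rfl
      · simp only [h02.symm, h12.symm, false_or]
        by_cases h3 : k = i₀
        · subst h3; simp [h01]
        · by_cases h4 : k = i₁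
          · subst h4; simp [h3]
          · simp [h3, h4]
      · simp only [h02.symm, h12.symm, or_false]
        by_cases h3 : j = i₀
        · subst h3; simp [h01]
        · by_cases h4 : j = i₁
          · subst h4; simp [h3]
          · simp [h3, h4]
    · rw [if_neg h]
  have hsum : a = kill i₀ a + kill i₁ b + c := by
    rw [hc, hb]
    abel
  have h3 : F a = F (kill i₀ a) + F (kill i₁ b) + F (kill i₂ c) := by
    conv_lhs => rw [hsum]
    rw [map_add, map_add, hcc]
  rw [h3]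
  refine (abs_add_le _ _).trans ?_
  have h4 := abs_add_le (F (kill i₀ a)) (F (kill i₁ b))
  linarith

end Q195.ASQ
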