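import Mathlib
import Pool.Agent.Q195.ASQ.Defs
import Pool.Agent.Q195.ASQ.Fin

set_option autoImplicit false

open Finset Filter Topology
open scoped TensorProduct ZeroAtInfty

namespace Q195.ASQ

section gen

variable {N : ℕ} {X : Type*} [NormedAddCommGroup X] [NormedSpace ℝ X]

theorem abs_le_norm (ψ : SymTensor N X →ₗ[ℝ] ℝ) {C : ℝ} (hC : 0 ≤ C)
    (h : ∀ x, |ψ (elem N x)| ≤ C * ‖x‖ ^ N) (u : SymTensor N X) : |ψ u| ≤ C * ‖u‖ := by
  have h1 : ∀ L : List (ℝ × X), |ψ (value L)| ≤ C * cost N L := by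
    intro L
    induction L with
    | nil => simp [value, cost]
    | cons p L ih =>
      have e1 : (value (p :: L) : SymTensor N X) = p.1 • elem N p.2 + value L := by
        simp [value]
      have e2 : cost N (p :: L) = |p.1| * ‖p.2‖ ^ N + cost N L := by
        simp [cost]
      rw [e1, e2, map_add, map_smul, smul_eq_mul]
      refine (abs_add_le _ _).trans ?_
      rw [abs_mul]
      have := mul_le_mul_of_nonneg_left (h p.2) (abs_nonneg p.1)
      nlinarith
  apply le_of_forall_pos_lt_add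
  intro ε hε
  obtain ⟨L, hL, h2⟩ := exists_cost_lt u
    (lt_add_of_pos_right (piS u) (div_pos hε (by positivity : 0 < C + 1)))
  have h3 := h1 L
  rw [hL] at h3
  have h4 : C * cost N L ≤ C * (piS u + ε / (C + 1)) := mul_le_mul_of_nonneg_left h2.le hC
  have h5 : C * (ε / (C + 1)) < ε := by
    rw [mul_div_assoc', div_lt_iff₀ (by positivity)]
    nlinarith
  rw [norm_def]
  linarith

theorem norm_elem_le (x : X) : ‖elem N x‖ ≤ ‖x‖ ^ N := by
  rw [norm_def]
  have := piS_le_cost (N := N) [((1 : ℝ), x)]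
  simpa [value, cost] using this

/-- extension of a bounded linear form to the completion -/
theorem exists_ext (ψ : SymTensor N X →ₗ[ℝ] ℝ) {C : ℝ} (hC : 0 ≤ C)
    (h : ∀ x, |ψ (elem N x)| ≤ C * ‖x‖ ^ N) :
    ∃ Φ : SymProj N X →L[ℝ] ℝ, ∀ u : SymTensor N X, Φ (u : SymProj N X) = ψ u := by
  let f : SymTensor N X →L[ℝ] ℝ := ψ.mkContinuous C fun u => by
    rw [Real.norm_eq_abs]; exact abs_le_norm ψ hC h u
  have hd : DenseRange (UniformSpace.Completion.toComplL : SymTensor N X →L[ℝ] SymProj N X) :=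
    UniformSpace.Completion.denseRange_coe
  have hu : IsUniformInducing
      (UniformSpace.Completion.toComplL : SymTensor N X →L[ℝ] SymProj N X) :=
    UniformSpace.Completion.isUniformInducing_coe _
  refine ⟨f.extend UniformSpace.Completion.toComplL, fun u => ?_⟩
  exact ContinuousLinearMap.extend_eq f hd hu u

theorem abs_le_of_elem (Φ : SymProj N X →L[ℝ] ℝ) {C : ℝ} (hC : 0 ≤ C)
    (h : ∀ x, |Φ (elem N x : SymTensor N X)| ≤ C * ‖x‖ ^ N) (z : SymProj N X) :
    |Φ z| ≤ C * ‖z‖ := by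
  induction z using UniformSpace.Completion.induction_on with
  | hp =>
    exact isClosed_le (by fun_prop) (by fun_prop)
  | ih u =>
    have h1 := abs_le_norm (Φ.toLinearMap ∘ₗ
      (UniformSpace.Completion.toComplL : SymTensor N X →L[ℝ] SymProj N X).toLinearMap) hC h u
    rw [UniformSpace.Completion.norm_coe]
    exact h1

theorem ext_elem (Φ Ψ : SymProj N X →L[ℝ] ℝ)
    (h : ∀ x, Φ (elem N x : SymTensor N X) = Ψ (elem N x : SymTensor N X)) : Φ = Ψ := by
  ext z
  have h1 := abs_le_of_elem (Φ - Ψ) (C := 0) le_rfl (fun x => by simp [h x]) z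
  have h2 : (Φ - Ψ) z = 0 := by
    rw [← abs_eq_zero]
    exact le_antisymm (by simpa using h1) (abs_nonneg _)
  simpa [sub_eq_zero] using h2

end gen

/-- the space `c₀` -/
abbrev c0 : Type := C₀(ℕ, ℝ)

theorem abs_apply_le (x : c0) (j : ℕ) : |x j| ≤ ‖x‖ := by
  have := x.toBCF.norm_coe_le_norm j
  simpa using this

/-- a sequence with finitely many nonzero terms -/
noncomputable def mk (f : ℕ → ℝ) (n : ℕ) (hf : ∀ j, n ≤ j → f j = 0) : c0 where
  toFun := f
  continuous_toFun := continuous_of_discreteTopology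
  zero_at_infty' := by
    rw [Filter.cocompact_eq_cofinite ℕ, Nat.cofinite_eq_atTop]
    exact tendsto_const_nhds.congr' (by
      filter_upwards [eventually_ge_atTop n] with j hj
      exact (hf j hj).symm)

@[simp] theorem mk_apply (f : ℕ → ℝ) (n : ℕ) (hf : ∀ j, n ≤ j → f j = 0) (j : ℕ) :
    mk f n hf j = f j := rfl

theorem norm_le_of {x : c0} {C : ℝ} (hC : 0 ≤ C) (h : ∀ j, |x j| ≤ C) : ‖x‖ ≤ C := by
  rw [← ZeroAtInftyContinuousMap.norm_toBCF_eq_norm]
  exact (BoundedContinuousFunction.norm_le hC).2 h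

/-- unit vectors -/
noncomputable def e (i : ℕ) : c0 := mk (fun j => if j = i then 1 else 0) (i + 1) fun j hj => by
  rw [if_neg (by omega)]

theorem e_apply (i j : ℕ) : e i j = if j = i then 1 else 0 := rfl

theorem norm_e (i : ℕ) : ‖e i‖ = 1 := by
  apply le_antisymm
  · apply norm_le_of zero_le_one
    intro j
    rw [e_apply]
    split_ifs <;> simp
  · have := abs_apply_le (e i) i
    simpa [e_apply] using this

theorem tendsto_c0 (x : c0) : Tendsto (fun j => x j) atTop (𝓝 0) := by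
  have := x.zero_at_infty'
  rw [Filter.cocompact_eq_cofinite ℕ, Nat.cofinite_eq_atTop] at this
  exact this

theorem asq_c0 : IsASQ c0 := by
  intro k x hx ε hε
  have h1 : ∀ᶠ n in atTop, ∀ i, |x i n| < ε := by
    rw [eventually_all]
    intro i
    have h2 := (tendsto_c0 (x i)).abs
    rw [abs_zero] at h2
    exact h2.eventually_lt_const hε
  obtain ⟨n, hn⟩ := h1.exists
  have key : ∀ i j, |x i j| + |e n j| ≤ 1 + ε := by
    intro i j
    rw [e_apply]
    by_cases h : j = n
    · subst h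
      rw [if_pos rfl, abs_one]
      linarith [hn i]
    · rw [if_neg h, abs_zero]
      have := abs_apply_le (x i) j
      rw [hx i] at this
      linarith
  refine ⟨e n, norm_e n, fun i => ⟨norm_le_of (by linarith) fun j => ?_,
    norm_le_of (by linarith) fun j => ?_⟩⟩
  · rw [ZeroAtInftyContinuousMap.add_apply]
    exact (abs_add_le _ _).trans (key i j)
  · rw [ZeroAtInftyContinuousMap.sub_apply]
    exact (abs_sub _ _).trans (key i j)

/-- first `n` coordinates -/
def crd (n : ℕ) (x : c0) : Fin n → ℝ := fun j => x j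

/-- coordinate functional -/
def cf (j : ℕ) : c0 →ₗ[ℝ] ℝ where
  toFun x := x j
  map_add' _ _ := rfl
  map_smul' _ _ := rfl

/-- the linear form of a matrix on the tensors -/
noncomputable def lin {n : ℕ} (a : Fin n → Fin n → ℝ) : (⨂[ℝ] _i : Fin 2, c0) →ₗ[ℝ] ℝ :=
  PiTensorProduct.lift (∑ j, ∑ k, a j k •
    ((MultilinearMap.mkPiAlgebra ℝ (Fin 2) ℝ).compLinearMap ![cf j, cf k]))

theorem lin_elem {n : ℕ} (a : Fin n → Fin n → ℝ) (x : c0) :
    lin a (⨂ₜ[ℝ] _i : Fin 2, x) = q a (crd n x) := by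
  unfold lin q
  rw [PiTensorProduct.lift.tprod]
  simp only [_root_.sum_apply, _root_.smul_apply,
    MultilinearMap.compLinearMap_apply, MultilinearMap.mkPiAlgebra_apply, Fin.prod_univ_two,
    smul_eq_mul]
  refine sum_congr rfl fun j _ => sum_congr rfl fun k _ => ?_
  simp only [Matrix.cons_val_zero, Matrix.cons_val_one, cf, crd]
  simp only [LinearMap.coe_mk, AddHom.coe_mk]
  ring

theorem q_bound {n : ℕ} (a : Fin n → Fin n → ℝ) {C : ℝ} (h : Bd a C) (x : c0) :
    |q a (crd n x)| ≤ C * ‖x‖ ^ 2 := by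
  rcases eq_or_ne x 0 with rfl | hx
  · have : crd n (0 : c0) = 0 := rfl
    rw [this]
    simp [q]
  · have h0 : 0 < ‖x‖ := norm_pos_iff.2 hx
    have h1 := h (‖x‖⁻¹ • crd n x) (fun j => by
      simp only [Pi.smul_apply, smul_eq_mul, crd, abs_mul, abs_inv, abs_norm]
      rw [inv_mul_le_iff₀ h0, mul_one]
      exact abs_apply_le x j)
    have h2 : q a (‖x‖⁻¹ • crd n x) = (‖x‖ ^ 2)⁻¹ * q a (crd n x) := by
      unfold q
      rw [mul_sum]
      refine sum_congr rfl fun j _ => ?_
      rw [mul_sum]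
      refine sum_congr rfl fun k _ => ?_
      simp only [Pi.smul_apply, smul_eq_mul]
      field_simp
    rw [h2, abs_mul, abs_inv, abs_of_pos (by positivity : 0 < ‖x‖ ^ 2),
      inv_mul_le_iff₀ (by positivity)] at h1
    linarith

theorem bd_exists {n : ℕ} (a : Fin n → Fin n → ℝ) : Bd a (∑ j, ∑ k, |a j k|) := by
  intro x hx
  unfold q
  refine (abs_sum_le_sum_abs _ _).trans (sum_le_sum fun j _ => ?_)
  refine (abs_sum_le_sum_abs _ _).trans (sum_le_sum fun k _ => ?_)
  rw [abs_mul, abs_mul]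
  have h1 : |a j k| * |x j| ≤ |a j k| * 1 := mul_le_mul_of_nonneg_left (hx j) (abs_nonneg _)
  calc |a j k| * |x j| * |x k| ≤ |a j k| * 1 * 1 :=
        mul_le_mul h1 (hx k) (abs_nonneg _) (by positivity)
    _ = |a j k| := by ring

/-- the restriction of `lin` to the symmetric tensors -/
noncomputable def sl {n : ℕ} (a : Fin n → Fin n → ℝ) : SymTensor 2 c0 →ₗ[ℝ] ℝ :=
  (lin a) ∘ₗ (Submodule.subtype (symSub 2 c0))

theorem sl_elem {n : ℕ} (a : Fin n → Fin n → ℝ) (x : c0) :
    sl a (elem 2 x) = q a (crd n x) := lin_elem a x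

theorem sl_ext {n : ℕ} (a : Fin n → Fin n → ℝ) :
    ∃ Φ : SymProj 2 c0 →L[ℝ] ℝ, ∀ u : SymTensor 2 c0, Φ (u : SymProj 2 c0) = sl a u :=
  exists_ext (sl a) (C := ∑ j, ∑ k, |a j k|)
    (sum_nonneg fun _ _ => sum_nonneg fun _ _ => abs_nonneg _)
    fun x => by rw [sl_elem]; exact q_bound a (bd_exists a) x

/-- the continuous linear form of a matrix -/
noncomputable def Phi {n : ℕ} (a : Fin n → Fin n → ℝ) : SymProj 2 c0 →L[ℝ] ℝ :=
  (sl_ext a).choose

theorem Phi_elem {n : ℕ} (a : Fin n → Fin n → ℝ) (x : c0) :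
    Phi a (elem 2 x : SymTensor 2 c0) = q a (crd n x) := by
  rw [← sl_elem]
  exact (sl_ext a).choose_spec _

theorem Phi_add {n : ℕ} (a b : Fin n → Fin n → ℝ) : Phi (a + b) = Phi a + Phi b :=
  ext_elem _ _ fun x => by
    rw [_root_.add_apply, Phi_elem, Phi_elem, Phi_elem, q_add]

theorem Phi_smul {n : ℕ} (c : ℝ) (a : Fin n → Fin n → ℝ) : Phi (c • a) = c • Phi a :=
  ext_elem _ _ fun x => by
    rw [_root_.smul_apply, Phi_elem, Phi_elem, q_smul, smul_eq_mul]

theorem Phi_le {n : ℕ} {a : Fin n → Fin n → ℝ} (h : Bd a 1) (z : SymProj 2 c0) :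
    |Phi a z| ≤ ‖z‖ := by
  have := abs_le_of_elem (Phi a) (C := 1) zero_le_one (fun x => by
    rw [Phi_elem]; exact q_bound a h x) z
  simpa using this

/-- evaluation at a point -/
noncomputable def ev (n : ℕ) (z : SymProj 2 c0) : (Fin n → Fin n → ℝ) →ₗ[ℝ] ℝ where
  toFun a := Phi a z
  map_add' a b := by rw [Phi_add]; rfl
  map_smul' c a := by rw [Phi_smul]; rfl

theorem q_crd_e {n : ℕ} (a : Fin n → Fin n → ℝ) (i : Fin n) : q a (crd n (e i)) = a i i := by
  unfold q
  rw [Finset.sum_eq_single i]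
  · rw [Finset.sum_eq_single i]
    · simp [crd, e_apply]
    · intro k _ hk
      have : ((k : ℕ) = (i : ℕ)) ↔ k = i := Fin.ext_iff.symm
      simp [crd, e_apply, this, hk]
    · simp
  · intro j _ hj
    have : ((j : ℕ) = (i : ℕ)) ↔ j = i := Fin.ext_iff.symm
    simp [crd, e_apply, this, hj]
  · simp

theorem norm_elem_e (i : ℕ) : ‖(elem 2 (e i) : SymTensor 2 c0)‖ = 1 := by
  apply le_antisymm
  · have := norm_elem_le (N := 2) (e i)
    rwa [norm_e, one_pow] at this
  · set a : Fin (i + 1) → Fin (i + 1) → ℝ := dg (Pi.single (Fin.last i) 1) with ha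
    have hb : Bd a 1 := by
      intro x hx
      rw [ha, q_dg, Finset.sum_eq_single (Fin.last i)]
      · simp only [Pi.single_eq_same, one_mul]
        rw [abs_of_nonneg (sq_nonneg _)]
        have := sq_le_sq' (by linarith [abs_nonneg (x (Fin.last i))]) (hx (Fin.last i))
        rwa [sq_abs, one_pow] at this
      · intro j _ hj; simp [hj]
      · simp
    have h1 := Phi_le hb (elem 2 (e i) : SymTensor 2 c0)
    rw [Phi_elem, UniformSpace.Completion.norm_coe] at h1
    have h2 := q_crd_e a (Fin.last i)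
    rw [Fin.val_last] at h2
    rw [h2] at h1
    simpa [ha, dg] using h1

/-- embedding of the first `n` coordinates -/
noncomputable def emb (n : ℕ) (y : Fin n → ℝ) : c0 := ∑ j, y j • e j

theorem emb_apply (n : ℕ) (y : Fin n → ℝ) (j : ℕ) :
    emb n y j = if h : j < n then y ⟨j, h⟩ else 0 := by
  have h1 : emb n y j = ∑ i, y i * (if j = (i : ℕ) then 1 else 0) := by
    have : cf j (emb n y) = ∑ i, cf j (y i • e i) := map_sum _ _ _
    exact this
  rw [h1]
  split_ifs with h
  · rw [Finset.sum_eq_single ⟨j, h⟩]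
    · simp
    · intro i _ hi
      rw [if_neg]
      · simp
      · intro h2
        exact hi (Fin.ext h2.symm)
    · simp
  · apply Finset.sum_eq_zero
    intro i _
    rw [if_neg]
    · simp
    · intro h2
      exact h (h2 ▸ i.2)

theorem norm_emb_le {n : ℕ} {y : Fin n → ℝ} {C : ℝ} (hC : 0 ≤ C) (h : ∀ j, |y j| ≤ C) :
    ‖emb n y‖ ≤ C := by
  apply norm_le_of hC
  intro j
  rw [emb_apply]
  split_ifs
  · exact h _
  · simpa using hC

theorem tendsto_emb (x : c0) : Tendsto (fun n => ‖x - emb n (crd n x)‖) atTop (𝓝 0) := by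
  rw [Metric.tendsto_atTop]
  intro ε hε
  have h := (tendsto_c0 x).abs
  rw [abs_zero] at h
  obtain ⟨m, hm⟩ := (h.eventually_lt_const (half_pos hε)).exists_forall_of_atTop
  refine ⟨m, fun n hn => ?_⟩
  rw [dist_zero_right, norm_norm]
  refine lt_of_le_of_lt (norm_le_of (half_pos hε).le fun j => ?_) (half_lt_self hε)
  rw [ZeroAtInftyContinuousMap.sub_apply, emb_apply]
  split_ifs with h1
  · simp only [crd, sub_self, abs_zero]
    exact (half_pos hε).le
  · rw [sub_zero]
    exact (hm j (by omega)).le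

theorem bil_exists (φ : SymProj 2 c0 →L[ℝ] ℝ) : ∃ G : c0 →ₗ[ℝ] c0 →ₗ[ℝ] ℝ,
    ∀ x, φ (elem 2 x : SymTensor 2 c0) = G x x := by
  obtain ⟨g, hg⟩ := LinearMap.exists_extend
    (p := symSub 2 c0)
    (φ.toLinearMap ∘ₗ
      (UniformSpace.Completion.toComplL : SymTensor 2 c0 →L[ℝ] SymProj 2 c0).toLinearMap)
  have u0 : ∀ x y : c0, Function.update ![0, y] 0 x = ![x, y] := by
    intro x y
    ext1 i
    fin_cases i <;> rfl
  have u1 : ∀ x y : c0, Function.update ![x, 0] 1 y = ![x, y] := by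
    intro x y
    ext1 i
    fin_cases i <;> rfl
  refine ⟨LinearMap.mk₂ ℝ (fun x y => g (PiTensorProduct.tprod ℝ ![x, y])) ?_ ?_ ?_ ?_, ?_⟩
  · intro x x' y
    rw [← map_add]
    congr 1
    rw [← u0 (x + x') y, ← u0 x y, ← u0 x' y]
    exact MultilinearMap.map_update_add _ _ _ _ _
  · intro c x y
    rw [smul_eq_mul, ← smul_eq_mul, ← map_smul]
    congr 1
    rw [← u0 (c • x) y, ← u0 x y]
    exact MultilinearMap.map_update_smul _ _ _ _ _
  · intro x y y'
    rw [← map_add]
    congr 1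
    rw [← u1 x (y + y'), ← u1 x y, ← u1 x y']
    exact MultilinearMap.map_update_add _ _ _ _ _
  · intro c x y
    rw [← map_smul]
    congr 1
    rw [← u1 x (c • y), ← u1 x y]
    exact MultilinearMap.map_update_smul _ _ _ _ _
  · intro x
    have h1 := LinearMap.congr_fun hg (elem 2 x)
    have h2 : (![x, x] : Fin 2 → c0) = fun _ => x := by
      ext1 i
      fin_cases i <;> rfl
    rw [LinearMap.mk₂_apply, h2]
    exact h1.symm

/-- the main approximation -/
theorem approx (φ : SymProj 2 c0 →L[ℝ] ℝ) (hφ : ∀ z, |φ z| ≤ ‖z‖) :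
    ∃ A : ℕ → ℕ → ℝ, (∀ n, Bd (fun j k : Fin n => A j k) 1) ∧
      ∀ x : c0, Tendsto (fun n => q (fun j k : Fin n => A j k) (crd n x)) atTop
        (𝓝 (φ (elem 2 x : SymTensor 2 c0))) := by
  obtain ⟨G, hG⟩ := bil_exists φ
  have hp : ∀ x, |G x x| ≤ ‖x‖ ^ 2 := by
    intro x
    rw [← hG]
    refine (hφ _).trans ?_
    rw [UniformSpace.Completion.norm_coe]
    exact norm_elem_le x
  have hq : ∀ (n : ℕ) (y : Fin n → ℝ), q (fun j k : Fin n => G (e j) (e k)) y
      = G (emb n y) (emb n y) := by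
    intro n y
    unfold q emb
    rw [LinearMap.map_sum₂]
    refine sum_congr rfl fun j _ => ?_
    rw [map_sum]
    refine sum_congr rfl fun k _ => ?_
    simp only [map_smul, LinearMap.smul_apply, smul_eq_mul]
    ring
  have hcross : ∀ y r : c0, |G y r + G r y| ≤ ‖r‖ * (‖y‖ + 1) ^ 2 := by
    intro y r
    rcases eq_or_ne r 0 with rfl | hr
    · simp
    · have h0 : 0 < ‖r‖ := norm_pos_iff.2 hr
      set t := Real.sqrt ‖r‖ with ht
      have ht0 : 0 < t := Real.sqrt_pos.2 h0
      have htt : t * t = ‖r‖ := Real.mul_self_sqrt h0.le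
      have h1 := hp (t • y + t⁻¹ • r)
      have h2 := hp (t • y - t⁻¹ • r)
      have e1 : G (t • y + t⁻¹ • r) (t • y + t⁻¹ • r) - G (t • y - t⁻¹ • r) (t • y - t⁻¹ • r)
          = 2 * (G y r + G r y) := by
        simp only [map_add, map_sub, map_smul, LinearMap.add_apply, LinearMap.sub_apply,
          LinearMap.smul_apply, smul_eq_mul]
        field_simp
        ring
      have n0 : ‖t⁻¹ • r‖ = t := by
        rw [norm_smul, norm_inv, Real.norm_of_nonneg ht0.le, ← htt]
        field_simp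
      have n1 : ‖t • y‖ = t * ‖y‖ := by rw [norm_smul, Real.norm_of_nonneg ht0.le]
      have n2 : ‖t • y + t⁻¹ • r‖ ≤ t * (‖y‖ + 1) := by
        refine (norm_add_le _ _).trans ?_
        rw [n0, n1]
        linarith
      have n3 : ‖t • y - t⁻¹ • r‖ ≤ t * (‖y‖ + 1) := by
        refine (norm_sub_le _ _).trans ?_
        rw [n0, n1]
        linarith
      have n4 : ‖t • y + t⁻¹ • r‖ ^ 2 ≤ (t * (‖y‖ + 1)) ^ 2 :=
        pow_le_pow_left₀ (norm_nonneg _) n2 2
      have n5 : ‖t • y - t⁻¹ • r‖ ^ 2 ≤ (t * (‖y‖ + 1)) ^ 2 :=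
        pow_le_pow_left₀ (norm_nonneg _) n3 2
      have n6 : (t * (‖y‖ + 1)) ^ 2 = ‖r‖ * (‖y‖ + 1) ^ 2 := by
        rw [mul_pow, pow_two t, htt]
      have h3 : |2 * (G y r + G r y)| ≤ 2 * (‖r‖ * (‖y‖ + 1) ^ 2) := by
        rw [← e1]
        refine (abs_sub _ _).trans ?_
        linarith
      rw [abs_mul, abs_of_pos (by norm_num : (0:ℝ) < 2)] at h3
      linarith
  refine ⟨fun j k => G (e j) (e k), fun n y hy => ?_, fun x => ?_⟩
  · rw [hq]
    refine (hp _).trans ?_
    have := norm_emb_le zero_le_one hy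
    nlinarith [norm_nonneg (emb n y)]
  · simp only [hq]
    rw [hG, tendsto_iff_norm_sub_tendsto_zero]
    have h0 := tendsto_emb x
    have h1 : Tendsto (fun n => ‖x - emb n (crd n x)‖ * (‖x‖ + 1) ^ 2
        + ‖x - emb n (crd n x)‖ ^ 2) atTop (𝓝 (0 * (‖x‖ + 1) ^ 2 + 0 ^ 2)) :=
      (h0.mul_const _).add (h0.pow 2)
    have h2 : (0 : ℝ) * (‖x‖ + 1) ^ 2 + 0 ^ 2 = 0 := by ring
    rw [h2] at h1
    refine squeeze_zero (fun n => norm_nonneg _) (fun n => ?_) h1
    set y := emb n (crd n x) with hy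
    have hyx : ‖y‖ ≤ ‖x‖ := norm_emb_le (norm_nonneg x) fun j => abs_apply_le x j
    set r := x - y with hr
    have hx : x = y + r := by rw [hr]; abel
    have e1 : G y y - G x x = -((G y r + G r y) + G r r) := by
      rw [hx]
      simp only [map_add, LinearMap.add_apply]
      ring
    rw [e1, norm_neg, Real.norm_eq_abs]
    refine (abs_add_le _ _).trans (add_le_add ((hcross y r).trans ?_) (hp r))
    apply mul_le_mul_of_nonneg_left _ (norm_nonneg r)
    apply pow_le_pow_left₀ (by positivity)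
    linarith

theorem not_asq : ¬ IsASQ (SymProj 2 c0) := by
  intro hZ
  have hK : (0 : ℝ) < K := by unfold K; norm_num
  set ε : ℝ := 1 / (56 * K) with hε
  have hε0 : 0 < ε := by positivity
  obtain ⟨v, hv, h⟩ := hZ 3 (fun i => ((elem 2 (e i) : SymTensor 2 c0) : SymProj 2 c0))
    (fun i => by rw [UniformSpace.Completion.norm_coe]; exact norm_elem_e i) ε hε0
  -- functionals
  have hmain : ∀ (n : ℕ) (hn : 3 ≤ n) (a : Fin n → Fin n → ℝ), Bd a 1 → |Phi a v| ≤ 1 / 2 := by
    intro n hn a ha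
    have h1 := fin_main (F := ev n v) (ε := ε) (i₀ := ⟨0, by omega⟩) (i₁ := ⟨1, by omega⟩)
      (i₂ := ⟨2, by omega⟩) (by simp) (by simp) (by simp) (fun b hb i hi => ?_) ha
    · have h2 : 7 * (4 * K * ε) = 1 / 2 := by
        rw [hε]
        field_simp
        norm_num
      rw [h2] at h1
      exact h1
    · obtain ⟨i', hi'⟩ : ∃ i' : Fin 3, (i : ℕ) = (i' : ℕ) := by
        rcases hi with rfl | rfl | rfl
        · exact ⟨0, rfl⟩
        · exact ⟨1, rfl⟩
        · exact ⟨2, rfl⟩
      have h2 := h i'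
      have h3 := (Phi_le hb _).trans h2.1
      have h4 := (Phi_le hb _).trans h2.2
      rw [map_add, Phi_elem, ← hi', q_crd_e] at h3
      rw [map_sub, Phi_elem, ← hi', q_crd_e] at h4
      change |b i i| + |Phi b v| ≤ 1 + ε
      rw [abs_le] at h3 h4
      rcases abs_cases (b i i) with h5 | h5 <;> rcases abs_cases (Phi b v) with h6 | h6 <;>
        linarith [h3.1, h3.2, h4.1, h4.2]
  have hv0 : ‖v‖ ≠ 0 := by
    rw [hv]
    exact one_ne_zero
  obtain ⟨φ, hφ1, hφv⟩ := exists_dual_vector ℝ v hv0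
  have hφ : ∀ z, |φ z| ≤ ‖z‖ := by
    intro z
    have := φ.le_opNorm z
    rwa [hφ1, one_mul] at this
  obtain ⟨A, hA, hlim⟩ := approx φ hφ
  obtain ⟨v', hv'⟩ := UniformSpace.Completion.denseRange_coe.exists_dist_lt v
    (ε := 1 / 8) (by norm_num)
  obtain ⟨L, rfl⟩ := exists_rep v'
  have hL : ∀ L : List (ℝ × c0), Tendsto (fun n => Phi (fun j k : Fin n => A j k)
      ((value L : SymTensor 2 c0) : SymProj 2 c0)) atTop
        (𝓝 (φ ((value L : SymTensor 2 c0) : SymProj 2 c0))) := by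
    intro L
    induction L with
    | nil =>
      have e0 : (value ([] : List (ℝ × c0)) : SymTensor 2 c0) = 0 := rfl
      rw [e0, UniformSpace.Completion.coe_zero]
      simp only [map_zero]
      exact tendsto_const_nhds
    | cons p L ih =>
      have e1 : (value (p :: L) : SymTensor 2 c0) = p.1 • elem 2 p.2 + value L := by
        simp [value]
      rw [e1, UniformSpace.Completion.coe_add, UniformSpace.Completion.coe_smul]
      simp only [map_add, map_smul, Phi_elem]
      exact ((hlim p.2).const_smul p.1).add ih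
  obtain ⟨n, hn3, hn⟩ : ∃ n, 3 ≤ n ∧ dist (Phi (fun j k : Fin n => A j k)
      ((value L : SymTensor 2 c0) : SymProj 2 c0))
        (φ ((value L : SymTensor 2 c0) : SymProj 2 c0)) < 1 / 8 := by
    have h1 := (Metric.tendsto_nhds.1 (hL L)) (1 / 8) (by norm_num)
    obtain ⟨n, hn⟩ := (h1.and (eventually_ge_atTop 3)).exists
    exact ⟨n, hn.2, hn.1⟩
  have b1 := hmain n hn3 _ (hA n)
  have b2 := Phi_le (hA n) (v - ((value L : SymTensor 2 c0) : SymProj 2 c0))
  have b3 := hφ (v - ((value L : SymTensor 2 c0) : SymProj 2 c0))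
  rw [dist_eq_norm] at hv'
  rw [Real.dist_eq] at hn
  rw [map_sub] at b2 b3
  rw [hφv, hv] at b3
  have b4 : (((1 : ℝ) : ℝ)) = 1 := rfl
  rw [abs_le] at b1 b2 b3
  rw [abs_lt] at hn
  simp only [RCLike.ofReal_real_eq_id, id_eq] at b3
  linarith [b1.1, b1.2, b2.1, b2.2, b3.1, b3.2, hn.1, hn.2]

end Q195.ASQ
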